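import Pool.Agent.Lib.MP_cb3775_ag.D.Unit
import Pool.Agent.Lib.MP_cb3775_ag.C.Trace

/-!
# The units of an admissible variation are rational

Proof text: see `D/Unit.lean`.
-/

set_option autoImplicit false

namespace MP_cb3775_ag

open Filter Topology

variable {n N : ℕ} {B : Base n}

private theorem arc_pow {p : Fin N → ℤ} {M : Matrix (Fin N) (Fin N) ℂ}
    (hM : ∀ a b, p b ≤ p a → M a b = 0) (m : ℕ) :
    ∀ a b, p b < p a + m → (M ^ m) a b = 0 := by
  induction m with
  | zero =>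
    intro a b h
    rw [pow_zero, Matrix.one_apply_ne]
    rintro rfl
    simp at h
  | succ m ih =>
    intro a b h
    rw [pow_succ, Matrix.mul_apply]
    apply Finset.sum_eq_zero
    intro c _
    by_cases hc : p b ≤ p c
    · rw [hM c b hc, mul_zero]
    · rw [ih a c (by push_cast at h; omega), zero_mul]

private theorem arc_bound (p : Fin N → ℤ) : ∃ K : ℕ, 2 ≤ K ∧ ∀ a b, p b < p a + K := by
  refine ⟨2 + ∑ a, ((p a).natAbs + (p a).natAbs), by omega, fun a b => ?_⟩
  have h1 : ∀ c, (p c).natAbs + (p c).natAbs ≤ ∑ a, ((p a).natAbs + (p a).natAbs) := fun c =>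
    Finset.single_le_sum (f := fun a => (p a).natAbs + (p a).natAbs) (fun _ _ => Nat.zero_le _)
      (Finset.mem_univ c)
  have ha := h1 a
  have hb := h1 b
  generalize ∑ a, ((p a).natAbs + (p a).natAbs) = S at ha hb ⊢
  push_cast
  omega

private theorem arc_exp {p : Fin N → ℤ} {M : Matrix (Fin N) (Fin N) ℂ}
    (hM : ∀ a b, p b ≤ p a → M a b = 0) {a b : Fin N} (hab : p b < p a + 2) :
    (NormedSpace.exp M) a b = (1 : Matrix (Fin N) (Fin N) ℂ) a b + M a b := by
  obtain ⟨K, hK2, hK⟩ := arc_bound p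
  have h0 : ∀ m ∉ Finset.range K, ((m.factorial : ℂ)⁻¹) • M ^ m = 0 := by
    intro m hm
    rw [Finset.mem_range, not_lt] at hm
    have : M ^ m = 0 := by
      ext c d
      rw [Matrix.zero_apply]
      refine arc_pow hM m c d ((hK c d).trans_le ?_)
      have : (K : ℤ) ≤ m := by exact_mod_cast hm
      omega
    rw [this, smul_zero]
  have h1 : NormedSpace.exp M = ∑ m ∈ Finset.range K, ((m.factorial : ℂ)⁻¹) • M ^ m := by
    rw [NormedSpace.exp_eq_tsum ℂ]
    exact tsum_eq_sum h0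
  rw [h1, Matrix.sum_apply]
  rw [← Finset.sum_subset (s₁ := Finset.range 2)]
  · rw [Finset.sum_range_succ, Finset.sum_range_one]
    simp
  · exact Finset.range_mono hK2
  · intro m _ hm
    rw [Finset.mem_range, not_lt] at hm
    rw [Matrix.smul_apply, arc_pow hM m a b, smul_zero]
    have : (2 : ℤ) ≤ m := by exact_mod_cast hm
    omega

private theorem arc_exp_unip {p : Fin N → ℤ} {M : Matrix (Fin N) (Fin N) ℂ}
    (hM : ∀ a b, p b ≤ p a → M a b = 0) : IsUnip p (NormedSpace.exp M) := by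
  intro a b hab
  rw [arc_exp hM (by omega), hM a b hab, add_zero, Matrix.one_apply]

private theorem arc_zc_unip {p : Fin N → ℤ} {A : Matrix (Fin N) (Fin N) ℤ} (h : IsUnip p A) :
    IsUnip p (zc A) := by
  intro a b hab
  rw [zc, Matrix.map_apply, h a b hab]
  split_ifs
  · exact Int.cast_one
  · exact Int.cast_zero

private theorem arc_lift (R : ℝ) : ∀ᶠ t in 𝓝[≠] (0 : ℂ), ∃ z : ℂ, e z = t ∧ R < z.im := by
  have h1 : ∀ᶠ t in 𝓝[≠] (0 : ℂ), ‖t‖ < Real.exp (-(2 * Real.pi * R)) := by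
    apply mem_nhdsWithin_of_mem_nhds
    have := Metric.ball_mem_nhds (0 : ℂ) (Real.exp_pos (-(2 * Real.pi * R)))
    filter_upwards [this] with t ht
    rwa [Metric.mem_ball, dist_zero_right] at ht
  filter_upwards [h1, self_mem_nhdsWithin] with t ht ht0
  obtain ⟨z, hz⟩ := e_surj (t := t) ht0
  refine ⟨z, hz, ?_⟩
  have h2 : ‖e z‖ = Real.exp (-(2 * Real.pi * z.im)) := by
    unfold e
    rw [Complex.norm_exp]
    congr 1
    simp
  rw [← hz, h2, Real.exp_lt_exp] at ht
  have hpi := Real.pi_pos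
  nlinarith

private theorem arc_zpow (z : ℂ) (m : ℤ) : e (m * z) = e z ^ m := by
  unfold e
  rw [← Complex.exp_int_mul]
  congr 1
  ring

namespace Variation

variable (V : Variation B N)

theorem q_arc (hadm : V.Admissible) {a b : Fin N} (hab : V.p a = V.p b - 1) :
    IsArcMero B (V.q a b) := by
  refine ⟨V.q_hol hab, fun φ hφ hpts => ?_⟩
  obtain ⟨R, Λ, Ft, Ψ, h1, hΛ, ⟨T, hT⟩, h4, -, h6, h7, h8, h9⟩ := hadm φ hφ hpts
  have hΛz : ∀ z : ℂ, ∀ a b, V.p b ≤ V.p a → (-z • Λ) a b = 0 := by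
    intro z c d hcd
    rw [Matrix.smul_apply, hΛ c d hcd, smul_zero]
  -- the unipotent matrix of the lifted filtration
  have hw : ∀ z : ℂ, R < z.im → ∃ w : Matrix (Fin N) (Fin N) ℂ, IsUnip V.p w ∧
      (∀ k, Ft k z = act w (Fge V.p k)) ∧ e (w a b) = V.q a b (φ (e z)) := by
    intro z hz
    obtain ⟨i, hi⟩ := Set.mem_iUnion.1 (V.cover (h1 z hz))
    have his : φ (e z) ∈ V.U i ∩ B.pts := ⟨hi, h1 z hz⟩
    obtain ⟨γ, hγ, hFt⟩ := h4 z hz i hi
    refine ⟨zc γ * V.u i (φ (e z)), isUnip_mul (arc_zc_unip hγ) (V.u_unip his), fun k => ?_, ?_⟩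
    · rw [hFt.self_of_nhds k, V.F_eq his, act_mul]
    · rw [unip_mul_entry (arc_zc_unip hγ) (V.u_unip his) hab, e_add, V.q_eq hab his, zc,
        Matrix.map_apply, e_int, one_mul]
  -- the unipotent matrix of the untwisted filtration
  have hv : ∀ z : ℂ, R < z.im → ∀ v : Matrix (Fin N) (Fin N) ℂ, IsUnip V.p v →
      (∀ k, Ψ k (e z) = act v (Fge V.p k)) →
      V.q a b (φ (e z)) = e z ^ (T a b) * e (v a b) := by
    intro z hz v hvu hvk
    obtain ⟨w, hwu, hwk, hwq⟩ := hw z hz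
    have hE := arc_exp_unip (hΛz z)
    have heq : v = NormedSpace.exp (-z • Λ) * w := by
      refine unip_unique hvu (isUnip_mul hE hwu) fun k => ?_
      rw [← hvk k, h6 z hz k, hwk k, act_mul]
    have hne : a ≠ b := by
      rintro rfl
      omega
    have hT' : Λ a b = (T a b : ℂ) := by
      have h10 := arc_exp hΛ (a := a) (b := b) (by omega)
      rw [hT, zc, Matrix.map_apply, Matrix.one_apply_ne hne, zero_add] at h10
      exact h10.symm
    have hvab : w a b = T a b * z + v a b := by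
      rw [heq, unip_mul_entry hE hwu hab, arc_exp (hΛz z) (by omega), Matrix.one_apply_ne hne,
        zero_add, Matrix.smul_apply, hT', smul_eq_mul]
      ring
    rw [← hwq, hvab, e_add, arc_zpow]
  -- the unipotent matrices near `0`
  have hex : ∀ᶠ t in 𝓝 (0 : ℂ), ∃ v : Matrix (Fin N) (Fin N) ℂ, IsUnip V.p v ∧
      ∀ k, Ψ k t = act v (Fge V.p k) := by
    have h0 : ∃ v : Matrix (Fin N) (Fin N) ℂ, IsUnip V.p v ∧
        ∀ k, Ψ k 0 = act v (Fge V.p k) := exists_unip V.p (fun k => Ψ k 0) h8 h9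
    have h10 : ∀ᶠ t in 𝓝[≠] (0 : ℂ), ∃ v : Matrix (Fin N) (Fin N) ℂ, IsUnip V.p v ∧
        ∀ k, Ψ k t = act v (Fge V.p k) := by
      filter_upwards [arc_lift R] with t ht
      obtain ⟨z, rfl, hz⟩ := ht
      obtain ⟨w, hwu, hwk, -⟩ := hw z hz
      refine ⟨NormedSpace.exp (-z • Λ) * w, isUnip_mul (arc_exp_unip (hΛz z)) hwu, fun k => ?_⟩
      rw [h6 z hz k, hwk k, act_mul]
    rw [eventually_nhdsWithin_iff] at h10
    filter_upwards [h10] with t ht
    by_cases ht0 : t = 0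
    · rw [ht0]
      exact h0
    · exact ht ht0
  choose! v hvv using fun (t : ℂ) (h : ∃ v : Matrix (Fin N) (Fin N) ℂ, IsUnip V.p v ∧
      ∀ k, Ψ k t = act v (Fge V.p k)) => h
  have han : ∀ a b, AnalyticAt ℂ (fun t => v t a b) 0 :=
    unip_analytic V.p 0 Ψ v (hex.mono fun t ht => hvv t ht) h7
  have hmer : MeromorphicAt (fun t : ℂ => t ^ (T a b) * e (v t a b)) 0 := by
    refine MeromorphicAt.mul (MeromorphicAt.zpow (MeromorphicAt.id 0) _) ?_
    refine AnalyticAt.meromorphicAt ?_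
    unfold e
    exact (analyticAt_const.mul (han a b)).cexp
  refine hmer.congr ?_
  filter_upwards [arc_lift R, mem_nhdsWithin_of_mem_nhds hex] with t ht htv
  obtain ⟨z, rfl, hz⟩ := ht
  exact (hv z hz _ (hvv _ htv).1 (hvv _ htv).2).symm

theorem q_rational (hadm : V.Admissible) {a b : Fin N} (hab : V.p a = V.p b - 1) :
    B.IsRational (V.q a b) :=
  isRational_of_arcs B _ (V.q_arc hadm hab)

end Variation

end MP_cb3775_ag
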