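import Pool.Agent.Lib.MP_cb3775_ag.Defs

/-!
# The function `e z = exp (2 π i z)`
-/

set_option autoImplicit false

namespace MP_cb3775_ag

open Filter Topology

theorem e_add (z w : ℂ) : e (z + w) = e z * e w := by
  unfold e
  rw [mul_add, Complex.exp_add]

theorem e_int (m : ℤ) : e (m : ℂ) = 1 := by
  unfold e
  rw [Complex.exp_eq_one_iff]
  exact ⟨m, by ring⟩

theorem e_eq_iff (z w : ℂ) : e z = e w ↔ ∃ m : ℤ, z = w + m := by
  unfold e
  rw [Complex.exp_eq_exp_iff_exists_int]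
  have h2 : (2 * Real.pi * Complex.I : ℂ) ≠ 0 := Complex.two_pi_I_ne_zero
  constructor
  · rintro ⟨m, hm⟩
    refine ⟨m, ?_⟩
    have : (2 * Real.pi * Complex.I : ℂ) * z = (2 * Real.pi * Complex.I) * (w + m) := by
      rw [hm]; ring
    exact mul_left_cancel₀ h2 this
  · rintro ⟨m, hm⟩
    exact ⟨m, by rw [hm]; ring⟩

theorem e_surj {t : ℂ} (ht : t ≠ 0) : ∃ z, e z = t := by
  have h2 : (2 * Real.pi * Complex.I : ℂ) ≠ 0 := Complex.two_pi_I_ne_zero
  refine ⟨Complex.log t / (2 * Real.pi * Complex.I), ?_⟩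
  unfold e
  rw [mul_div_cancel₀ _ h2, Complex.exp_log ht]

private theorem e_nsmul_pow (z : ℂ) (k : ℕ) : e z ^ k = e (k * z) := by
  unfold e
  rw [← Complex.exp_nat_mul]
  congr 1
  ring

private theorem e_eq_one_iff' (z : ℂ) : e z = 1 ↔ ∃ m : ℤ, z = m := by
  have h := e_eq_iff z 0
  have h0 : e 0 = 1 := by
    have := e_int 0
    rwa [Int.cast_zero] at this
  rw [h0] at h
  rw [h]
  simp

/-- `e z` is a root of unity iff `z` is rational. -/
theorem e_root_iff (z : ℂ) : (∃ k : ℕ, 0 < k ∧ e z ^ k = 1) ↔ ∃ r : ℚ, z = (r : ℂ) := by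
  constructor
  · rintro ⟨k, hk, h⟩
    rw [e_nsmul_pow, e_eq_one_iff'] at h
    obtain ⟨m, hm⟩ := h
    have hk0 : (k : ℂ) ≠ 0 := by exact_mod_cast hk.ne'
    refine ⟨(m : ℚ) / k, ?_⟩
    push_cast
    rw [eq_div_iff hk0, mul_comm]
    exact hm
  · rintro ⟨r, rfl⟩
    refine ⟨r.den, r.pos, ?_⟩
    rw [e_nsmul_pow, e_eq_one_iff']
    refine ⟨r.num, ?_⟩
    have h := Rat.den_mul_eq_num r
    exact_mod_cast h

end MP_cb3775_ag
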