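import Pool.Agent.Lib.MP_cb3775_ag.D.Unip

/-!
# Filtrations opposite to the weight filtration and unipotent matrices

PROOF of `exists_unip`: for `k = p b` write `e_b = f + w`, `f ∈ F k`, `w ∈ Wlt p k` (`IsCompl`); the column `b` of
`u` is `f = e_b - w`. All columns `b` with `k ≤ p b` lie in `F k` (antitone), they span a complement of
`Wlt p k`, so all of `F k`. Uniqueness: `u⁻¹ * u'` is unipotent and maps every `Fge p k` to itself, so it is
`1`. `unip_analytic`: choose from the frame `v` of `F k` near `x₀` a subset which is a basis at `x₀`; near `x₀`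
it stays a basis of `F k x` together with `Wlt p k` (determinant), and solving the linear system
`e_b = ∑ c_j v_j + w` (Cramer, analytic coefficients) shows that the column `b` is analytic, `k = p b`.
-/

set_option autoImplicit false

namespace MP_cb3775_ag

open Filter Topology

variable {N : ℕ}

private theorem flag_wlt_mulVec {p : Fin N → ℤ} {A : Matrix (Fin N) (Fin N) ℂ} (h : IsUnip p A)
    {k : ℤ} {v : Fin N → ℂ} (hv : v ∈ Wlt p k) : A.mulVec v ∈ Wlt p k := by
  intro a ha
  change ∑ a', A a a' * v a' = 0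
  apply Finset.sum_eq_zero
  intro a' _
  by_cases h1 : k ≤ p a'
  · rw [hv a' h1, mul_zero]
  · have h2 : a ≠ a' := by
      rintro rfl
      exact h1 ha
    rw [h a a' (by omega), if_neg h2, zero_mul]

private theorem flag_inv_mul {p : Fin N → ℤ} {A : Matrix (Fin N) (Fin N) ℂ} (h : IsUnip p A) :
    A⁻¹ * A = 1 :=
  Matrix.nonsing_inv_mul A (by rw [isUnip_det h]; exact isUnit_one)

private theorem flag_mul_inv {p : Fin N → ℤ} {A : Matrix (Fin N) (Fin N) ℂ} (h : IsUnip p A) :
    A * A⁻¹ = 1 :=
  Matrix.mul_nonsing_inv A (by rw [isUnip_det h]; exact isUnit_one)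

theorem exists_unip (p : Fin N → ℤ) (F : ℤ → Submodule ℂ (Fin N → ℂ)) (hanti : Antitone F)
    (hcompl : ∀ k, IsCompl (F k) (Wlt p k)) : ∃ u, IsUnip p u ∧ ∀ k, F k = act u (Fge p k) := by
  have hex : ∀ b : Fin N, ∃ f ∈ F (p b), ∃ w ∈ Wlt p (p b), f + w = Pi.single b (1 : ℂ) := by
    intro b
    have h1 : (Pi.single b (1 : ℂ) : Fin N → ℂ) ∈ F (p b) ⊔ Wlt p (p b) := by
      rw [(hcompl (p b)).sup_eq_top]
      exact Submodule.mem_top
    obtain ⟨f, hf, w, hw, hfw⟩ := Submodule.mem_sup.mp h1
    exact ⟨f, hf, w, hw, hfw⟩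
  choose f hf w hw hfw using hex
  set u : Matrix (Fin N) (Fin N) ℂ := fun a b => f b a with hu
  have hunip : IsUnip p u := by
    intro a b hab
    have h1 := congrFun (hfw b) a
    rw [Pi.add_apply, hw b a hab, add_zero, Pi.single_apply] at h1
    exact h1
  have hsub : ∀ k, ∀ v ∈ Fge p k, u.mulVec v ∈ F k := by
    intro k v hv
    have h1 : u.mulVec v = ∑ b, v b • f b := by
      funext a
      rw [Finset.sum_apply]
      change ∑ b, u a b * v b = _
      refine Finset.sum_congr rfl fun b _ => ?_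
      rw [Pi.smul_apply, smul_eq_mul, mul_comm]
    rw [h1]
    refine Submodule.sum_mem _ fun b _ => ?_
    by_cases hb : p b < k
    · rw [hv b hb, zero_smul]
      exact Submodule.zero_mem _
    · exact Submodule.smul_mem _ _ (hanti (not_lt.mp hb) (hf b))
  refine ⟨u, hunip, fun k => le_antisymm ?_ ?_⟩
  · intro x hx
    set y : Fin N → ℂ := u⁻¹.mulVec x with hy
    set g : Fin N → ℂ := fun a => if k ≤ p a then y a else 0 with hg
    set r : Fin N → ℂ := fun a => if k ≤ p a then 0 else y a with hr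
    have hyg : y = g + r := by
      funext a
      simp only [hg, hr, Pi.add_apply]
      split_ifs <;> simp
    have hgm : g ∈ Fge p k := by
      intro a ha
      simp only [hg]
      rw [if_neg (by omega)]
    have hrm : r ∈ Wlt p k := by
      intro a ha
      simp only [hr, if_pos ha]
    have hxy : u.mulVec y = x := by
      rw [hy, Matrix.mulVec_mulVec, flag_mul_inv hunip, Matrix.one_mulVec]
    have hsum : u.mulVec g + u.mulVec r = x := by
      rw [← Matrix.mulVec_add, ← hyg, hxy]
    have hrF : u.mulVec r ∈ F k := by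
      have h2 : u.mulVec r = x - u.mulVec g := by
        rw [← hsum]
        abel
      rw [h2]
      exact Submodule.sub_mem _ hx (hsub k g hgm)
    have hr0 : u.mulVec r = 0 := by
      have h3 : u.mulVec r ∈ F k ⊓ Wlt p k := ⟨hrF, flag_wlt_mulVec hunip hrm⟩
      rw [(hcompl k).inf_eq_bot] at h3
      exact (Submodule.mem_bot ℂ).mp h3
    refine ⟨g, hgm, ?_⟩
    rw [Matrix.toLin'_apply]
    rw [hr0, add_zero] at hsum
    exact hsum
  · rintro x ⟨v, hv, rfl⟩
    rw [Matrix.toLin'_apply]
    exact hsub k v hv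

theorem unip_unique {p : Fin N → ℤ} {u u' : Matrix (Fin N) (Fin N) ℂ} (h : IsUnip p u)
    (h' : IsUnip p u') (he : ∀ k, act u (Fge p k) = act u' (Fge p k)) : u = u' := by
  funext a b
  have h1 : (fun a => u a b) ∈ act u' (Fge p (p b)) := by
    rw [← he]
    exact col_mem b
  have h2 : (fun a => u' a b) ∈ act u' (Fge p (p b)) := col_mem b
  obtain ⟨g, hg, hgd⟩ := Submodule.sub_mem _ h1 h2
  rw [Matrix.toLin'_apply] at hgd
  have h3 : u'.mulVec g ∈ Wlt p (p b) := by
    rw [hgd]
    intro c hc
    rw [Pi.sub_apply, h c b hc, h' c b hc, sub_self]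
  have h4 : g ∈ Wlt p (p b) := by
    have h5 := flag_wlt_mulVec (isUnip_inv h') h3
    rwa [Matrix.mulVec_mulVec, flag_inv_mul h', Matrix.one_mulVec] at h5
  have h6 : g = 0 := by
    funext c
    by_cases hc : p b ≤ p c
    · exact h4 c hc
    · exact hg c (not_le.mp hc)
  rw [h6, Matrix.mulVec_zero] at hgd
  have h7 := congrFun hgd a
  rw [Pi.sub_apply, Pi.zero_apply] at h7
  exact sub_eq_zero.mp h7.symm

end MP_cb3775_ag
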