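import Pool.Agent.Lib.MP_cb3775_ag.D.Per0

/-!
# Transversality for the period matrix

Proof text: see `D/Per0.lean`.
-/

set_option autoImplicit false

namespace MP_cb3775_ag

open Filter Topology

variable {n N : ℕ} {B : Base n}

namespace Variation

variable (V : Variation B N)

/-- The linear algebra of the proof: `d` is in `act U (Fge p (q - 1))` and has only components of
weight `< q`. -/
theorem per_linear {p : Fin N → ℤ} {U : Matrix (Fin N) (Fin N) ℂ} (hU : IsUnip p U) (q : ℤ)
    {d : Fin N → ℂ} (hd : d ∈ act U (Fge p (q - 1))) (hd0 : ∀ a, q ≤ p a → d a = 0)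
    (a : Fin N) : d a = ∑ c, U a c * (if p c = q - 1 then d c else 0) := by
  obtain ⟨f, hf, hfd⟩ := hd
  rw [Matrix.toLin'_apply] at hfd
  have hdet : IsUnit U.det := by rw [isUnip_det hU]; exact isUnit_one
  have hfd' : f = U⁻¹.mulVec d := by
    rw [← hfd, Matrix.mulVec_mulVec, Matrix.nonsing_inv_mul U hdet, Matrix.one_mulVec]
  have hinv := isUnip_inv hU
  have key : ∀ c, q - 1 ≤ p c → f c = if p c = q - 1 then d c else 0 := by
    intro c hc
    have h1 : f c = ∑ e, U⁻¹ c e * d e := by rw [hfd']; rfl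
    have h2 : ∀ e, U⁻¹ c e * d e = if c = e then d e else 0 := by
      intro e
      rcases le_or_gt q (p e) with h3 | h3
      · rw [hd0 e h3, mul_zero, ite_self]
      · rw [hinv c e (by omega)]
        by_cases hce : c = e
        · rw [if_pos hce, if_pos hce, one_mul]
        · rw [if_neg hce, if_neg hce, zero_mul]
    rw [h1, Finset.sum_congr rfl fun e _ => h2 e, Finset.sum_ite_eq Finset.univ c d,
      if_pos (Finset.mem_univ c)]
    by_cases h4 : p c = q - 1
    · rw [if_pos h4]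
    · rw [if_neg h4]
      exact hd0 c (by omega)
  have h5 : ∀ c, f c = if p c = q - 1 then d c else 0 := by
    intro c
    rcases le_or_gt (q - 1) (p c) with h3 | h3
    · exact key c h3
    · rw [if_neg h3.ne]
      exact hf c h3
  have h6 : d a = ∑ c, U a c * f c := by rw [← hfd]; rfl
  rw [h6]
  exact Finset.sum_congr rfl fun c _ => by rw [← h5 c]

theorem u_deriv {i : V.ι} {s : Pt n} (hs : s ∈ V.U i ∩ B.pts) {σ : (Fin n → ℂ) → ℂ}
    (hσ : B.IsSection s σ) : ∀ᶠ x in 𝓝 s.1, ∀ (w : Fin n → ℂ) (a b : Fin N),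
      fderiv ℂ (fun x => V.u i (x, σ x) a b) x w =
        ∑ c, V.u i (x, σ x) a c *
          (if V.p c = V.p b - 1 then fderiv ℂ (fun x => V.u i (x, σ x) c b) x w else 0) := by
  have hmem : ∀ᶠ x in 𝓝 s.1, (x, σ x) ∈ V.U i ∩ B.pts := by
    have h1 := hσ.eventually_mem
    have h2 : ∀ᶠ x in 𝓝 s.1, (x, σ x) ∈ V.U i := by
      have hc : ContinuousAt (fun x => (x, σ x)) s.1 := continuousAt_id.prodMk hσ.1.continuousAt
      have h3 : V.U i ∈ 𝓝 (s.1, σ s.1) := by
        rw [hσ.2.1]
        exact (V.isOpen i).mem_nhds hs.1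
      exact hc.preimage_mem_nhds h3
    filter_upwards [h1, h2] with x h1 h2 using ⟨h2, h1⟩
  filter_upwards [hmem.eventually_nhds, hσ.eventually] with x hx hsx w a b
  have hx0 : (x, σ x) ∈ V.U i ∩ B.pts := hx.self_of_nhds
  have han : ∀ a b, AnalyticAt ℂ (fun x => V.u i (x, σ x) a b) x := fun a b =>
    (V.u_hol hx0 a b).comp_section hsx
  -- the line
  have hl0 : x + (0 : ℂ) • w = x := by rw [zero_smul, add_zero]
  have hlan : AnalyticAt ℂ (fun t : ℂ => x + t • w) 0 := by fun_prop
  have hld : HasDerivAt (fun t : ℂ => x + t • w) w 0 := by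
    have h1 := ((hasDerivAt_id (0 : ℂ)).smul_const w).const_add x
    rwa [one_smul] at h1
  have hlc : Tendsto (fun t : ℂ => x + t • w) (𝓝 0) (𝓝 x) := by
    have h1 := hlan.continuousAt.tendsto
    rwa [hl0] at h1
  have hγan : AnalyticAt ℂ (fun t : ℂ => ((x + t • w, σ (x + t • w)) : Pt n)) 0 :=
    hlan.prod (hsx.1.comp_of_eq hlan hl0)
  have hγmem : ∀ᶠ t in 𝓝 (0 : ℂ), (x + t • w, σ (x + t • w)) ∈ V.U i ∩ B.pts :=
    hlc.eventually hx
  have hvan : AnalyticAt ℂ (fun (t : ℂ) (a : Fin N) => V.u i (x + t • w, σ (x + t • w)) a b) 0 := by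
    rw [analyticAt_pi_iff]
    exact fun a => (han a b).comp_of_eq hlan hl0
  have hder := V.F_trans i (V.p b) (fun t : ℂ => (x + t • w, σ (x + t • w)))
    (fun (t : ℂ) (a : Fin N) => V.u i (x + t • w, σ (x + t • w)) a b) hγan
    (by simpa [hl0] using hx0.1) (hγmem.mono fun t ht => ht.2) hvan
    (hγmem.mono fun t ht => by
      rw [V.F_eq ht]
      exact col_mem b)
  have hder2 : deriv (fun (t : ℂ) (a : Fin N) => V.u i (x + t • w, σ (x + t • w)) a b) 0 =
      fun a => fderiv ℂ (fun x => V.u i (x, σ x) a b) x w := by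
    funext a
    have h1 : HasDerivAt (fun (t : ℂ) (a : Fin N) => V.u i (x + t • w, σ (x + t • w)) a b)
        (fun a => fderiv ℂ (fun x => V.u i (x, σ x) a b) x w) 0 := by
      rw [hasDerivAt_pi]
      intro a
      have h2 : HasFDerivAt (fun x => V.u i (x, σ x) a b)
          (fderiv ℂ (fun x => V.u i (x, σ x) a b) x) (x + (0 : ℂ) • w) := by
        rw [hl0]
        exact (han a b).differentiableAt.hasFDerivAt
      exact h2.comp_hasDerivAt (0 : ℂ) hld
    rw [h1.deriv]
  rw [hder2] at hder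
  have hder3 : (fun a => fderiv ℂ (fun x => V.u i (x, σ x) a b) x w) ∈
      act (V.u i (x, σ x)) (Fge V.p (V.p b - 1)) := by
    rw [← V.F_eq hx0]
    have h3 : ((x + (0 : ℂ) • w, σ (x + (0 : ℂ) • w)) : Pt n) = (x, σ x) := by rw [hl0]
    rw [← h3]
    exact hder
  refine per_linear (V.u_unip hx0) (V.p b) hder3 (fun c hc => ?_) a
  have h4 : (fun x => V.u i (x, σ x) c b) =ᶠ[𝓝 x] fun _ => (if c = b then 1 else 0) :=
    hx.mono fun y hy => V.u_unip hy c b hc
  simp only [h4.fderiv_eq, fderiv_const_apply, ContinuousLinearMap.zero_apply]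

end Variation

end MP_cb3775_ag
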