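import Pool.Agent.Lib.MP_cb3775_ag.D.Unip

/-!
# The unipotent matrix depends analytically on the filtration

Proof text: see `D/Flag.lean`.
-/

set_option autoImplicit false

namespace MP_cb3775_ag

open Filter Topology

variable {N : ℕ}

private theorem wlt_mulVec {p : Fin N → ℤ} {A : Matrix (Fin N) (Fin N) ℂ} (h : IsUnip p A) {k : ℤ}
    {v : Fin N → ℂ} (hv : v ∈ Wlt p k) : A.mulVec v ∈ Wlt p k := by
  intro a ha
  change ∑ a', A a a' * v a' = 0
  apply Finset.sum_eq_zero
  intro a' _
  by_cases h1 : k ≤ p a'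
  · rw [hv a' h1, mul_zero]
  · have h2 : a ≠ a' := by
      rintro rfl
      exact h1 ha
    rw [h a a' (by omega), if_neg h2, zero_mul]

private theorem unip_inv_mul {p : Fin N → ℤ} {A : Matrix (Fin N) (Fin N) ℂ} (h : IsUnip p A) :
    A⁻¹ * A = 1 :=
  Matrix.nonsing_inv_mul A (by rw [isUnip_det h]; exact isUnit_one)

private theorem unip_mul_inv {p : Fin N → ℤ} {A : Matrix (Fin N) (Fin N) ℂ} (h : IsUnip p A) :
    A * A⁻¹ = 1 :=
  Matrix.mul_nonsing_inv A (by rw [isUnip_det h]; exact isUnit_one)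

private theorem exists_lift {p : Fin N → ℤ} {A : Matrix (Fin N) (Fin N) ℂ} (h : IsUnip p A) (k : ℤ)
    (c : Fin N) : ∃ f ∈ act A (Fge p k), ∀ a, k ≤ p a → f a = if a = c then 1 else 0 := by
  set y : Fin N → ℂ := A⁻¹.mulVec (Pi.single c 1) with hy
  set g : Fin N → ℂ := fun a => if k ≤ p a then y a else 0 with hg
  set w : Fin N → ℂ := fun a => if k ≤ p a then 0 else y a with hw
  have hyg : y = g + w := by
    funext a
    simp only [hg, hw, Pi.add_apply]
    split_ifs <;> simp
  have hwm : w ∈ Wlt p k := by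
    intro a ha
    simp only [hw, if_pos ha]
  refine ⟨A.mulVec g, ⟨g, ?_, by rw [Matrix.toLin'_apply]⟩, ?_⟩
  · intro a ha
    simp only [hg]
    rw [if_neg (by omega)]
  · intro a ha
    have h1 : A.mulVec y = Pi.single c 1 := by
      rw [hy, Matrix.mulVec_mulVec, unip_mul_inv h, Matrix.one_mulVec]
    rw [hyg, Matrix.mulVec_add] at h1
    have h2 := congrFun h1 a
    rw [Pi.add_apply, wlt_mulVec h hwm a ha, add_zero, Pi.single_apply] at h2
    exact h2

private theorem lift_unique {p : Fin N → ℤ} {A : Matrix (Fin N) (Fin N) ℂ} (h : IsUnip p A) (k : ℤ)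
    {f f' : Fin N → ℂ} (hf : f ∈ act A (Fge p k)) (hf' : f' ∈ act A (Fge p k))
    (he : ∀ a, k ≤ p a → f a = f' a) : f = f' := by
  obtain ⟨g, hg, rfl⟩ := hf
  obtain ⟨g', hg', rfl⟩ := hf'
  rw [Matrix.toLin'_apply, Matrix.toLin'_apply] at *
  have h1 : A.mulVec (g - g') ∈ Wlt p k := by
    intro a ha
    rw [Matrix.mulVec_sub, Pi.sub_apply, he a ha, sub_self]
  have h2 := wlt_mulVec (isUnip_inv h) h1
  rw [Matrix.mulVec_mulVec, unip_inv_mul h, Matrix.one_mulVec] at h2
  have h3 : g = g' := by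
    funext a
    by_cases ha : k ≤ p a
    · have := h2 a ha
      rw [Pi.sub_apply] at this
      exact sub_eq_zero.1 this
    · rw [hg a (by omega), hg' a (by omega)]
  rw [h3]

private theorem analyticAt_det' {E : Type} [NormedAddCommGroup E] [NormedSpace ℂ E] {x₀ : E}
    {I : Type} [Fintype I] [DecidableEq I] (M : E → Matrix I I ℂ)
    (hM : ∀ a b, AnalyticAt ℂ (fun x => M x a b) x₀) : AnalyticAt ℂ (fun x => (M x).det) x₀ := by
  have h1 : (fun x => (M x).det) = fun x => ∑ σ : Equiv.Perm I,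
      ((Equiv.Perm.sign σ : ℤ) : ℂ) * ∏ i, M x (σ i) i := by
    funext x
    exact Matrix.det_apply' (M x)
  rw [h1]
  apply Finset.analyticAt_fun_sum
  intro σ _
  apply analyticAt_const.mul
  apply Finset.analyticAt_fun_prod
  intro i _
  exact hM _ _

theorem unip_analytic {E : Type} [NormedAddCommGroup E] [NormedSpace ℂ E] (p : Fin N → ℤ) (x₀ : E)
    (F : ℤ → E → Submodule ℂ (Fin N → ℂ)) (u : E → Matrix (Fin N) (Fin N) ℂ)
    (hu : ∀ᶠ x in 𝓝 x₀, IsUnip p (u x) ∧ ∀ k, F k x = act (u x) (Fge p k))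
    (hF : ∀ k, ∃ (m : ℕ) (v : Fin m → E → (Fin N → ℂ)), (∀ j, AnalyticAt ℂ (v j) x₀) ∧
      ∀ᶠ x in 𝓝 x₀, F k x = Submodule.span ℂ (Set.range fun j => v j x)) :
    ∀ a b, AnalyticAt ℂ (fun x => u x a b) x₀ := by
  intro a₀ b
  set k := p b with hk
  obtain ⟨m, v, hv, hspan⟩ := hF k
  have hu0 := hu.self_of_nhds
  have hs0 := hspan.self_of_nhds
  let I : Type := {a : Fin N // k ≤ p a}
  have hC : ∀ c : I, ∃ C : Fin m → ℂ, ∀ a, k ≤ p a →
      (∑ j, C j • v j x₀) a = if a = c.1 then 1 else 0 := by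
    intro c
    obtain ⟨f, hf, hfa⟩ := exists_lift hu0.1 k c.1
    rw [← hu0.2 k, hs0, Submodule.mem_span_range_iff_exists_fun] at hf
    obtain ⟨C, hC⟩ := hf
    exact ⟨C, fun a ha => by rw [hC]; exact hfa a ha⟩
  choose C hC using hC
  set w : I → E → (Fin N → ℂ) := fun c x => ∑ j, C c j • v j x with hw
  have hvj : ∀ j a, AnalyticAt ℂ (fun x => v j x a) x₀ := by
    intro j a
    exact ((ContinuousLinearMap.proj (R := ℂ) (φ := fun _ : Fin N => ℂ) a).analyticAt _).comp (hv j)
  have hwa : ∀ c a, AnalyticAt ℂ (fun x => w c x a) x₀ := by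
    intro c a
    have h1 : (fun x => w c x a) = fun x => ∑ j, C c j * v j x a := by
      funext x
      simp only [hw, Finset.sum_apply, Pi.smul_apply, smul_eq_mul]
    rw [h1]
    apply Finset.analyticAt_fun_sum
    intro j _
    exact analyticAt_const.mul (hvj j a)
  set M : E → Matrix I I ℂ := fun x => Matrix.of (fun a c => w c x a.1) with hM
  have hMa : ∀ a c, AnalyticAt ℂ (fun x => M x a c) x₀ := fun a c => hwa c a.1
  have hdet := analyticAt_det' M hMa
  have hM0 : M x₀ = 1 := by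
    ext a c
    rw [Matrix.one_apply]
    change w c x₀ a.1 = _
    rw [show w c x₀ = ∑ j, C c j • v j x₀ from rfl, hC c a.1 a.2]
    exact if_congr Subtype.ext_iff.symm rfl rfl
  have hd0 : (M x₀).det ≠ 0 := by
    rw [hM0, Matrix.det_one]
    exact one_ne_zero
  have hadj : ∀ c c', AnalyticAt ℂ (fun x => (M x).adjugate c c') x₀ := by
    intro c c'
    have h1 : (fun x => (M x).adjugate c c') =
        fun x => ((M x).updateRow c' (Pi.single c 1)).det := by
      funext x
      exact Matrix.adjugate_apply _ _ _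
    rw [h1]
    apply analyticAt_det'
    intro a a'
    by_cases h2 : a = c'
    · subst h2
      simp only [Matrix.updateRow_self]
      exact analyticAt_const
    · simp only [Matrix.updateRow_ne h2]
      exact hMa a a'
  let b' : I := ⟨b, le_refl _⟩
  have hG : AnalyticAt ℂ (fun x => ∑ c : I, ((M x).det)⁻¹ * (M x).adjugate c b' * w c x a₀) x₀ := by
    apply Finset.analyticAt_fun_sum
    intro c _
    exact ((hdet.inv hd0).mul (hadj c b')).mul (hwa c a₀)
  refine hG.congr ?_
  have hdne : ∀ᶠ x in 𝓝 x₀, (M x).det ≠ 0 := hdet.continuousAt.eventually_ne hd0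
  filter_upwards [hu, hspan, hdne] with x hx1 hx2 hx3
  have key : (∑ c : I, (((M x).det)⁻¹ * (M x).adjugate c b') • w c x) = fun a => u x a b := by
    apply lift_unique hx1.1 k
    · rw [← hx1.2 k]
      apply Submodule.sum_mem
      intro c _
      apply Submodule.smul_mem
      rw [hx2]
      apply Submodule.sum_mem
      intro j _
      apply Submodule.smul_mem
      exact Submodule.subset_span ⟨j, rfl⟩
    · exact col_mem b
    · intro a ha
      have h1 : (M x * (M x).adjugate) ⟨a, ha⟩ b' = (M x).det * (1 : Matrix I I ℂ) ⟨a, ha⟩ b' := by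
        rw [Matrix.mul_adjugate, Matrix.smul_apply, smul_eq_mul]
      rw [Matrix.mul_apply] at h1
      rw [hx1.1 a b ha]
      have h2 : (∑ c : I, (((M x).det)⁻¹ * (M x).adjugate c b') • w c x) a =
          ((M x).det)⁻¹ * ∑ c : I, M x ⟨a, ha⟩ c * (M x).adjugate c b' := by
        rw [Finset.sum_apply, Finset.mul_sum]
        apply Finset.sum_congr rfl
        intro c _
        rw [Pi.smul_apply, smul_eq_mul]
        change _ = ((M x).det)⁻¹ * (w c x a * (M x).adjugate c b')
        ring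
      rw [h2, h1, ← mul_assoc, inv_mul_cancel₀ hx3, one_mul, Matrix.one_apply]
      exact if_congr Subtype.ext_iff rfl rfl
  have h3 := congrFun key a₀
  rw [Finset.sum_apply] at h3
  rw [← h3]
  rfl

end MP_cb3775_ag
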