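import Pool.Agent.Lib.MP_cb3775_ag.D.Flag
import Pool.Agent.Lib.MP_cb3775_ag.D.UAna
import Pool.Agent.Lib.MP_cb3775_ag.B.Sect

/-!
# The period matrices of a variation

Hints. `u_hol`: compose with a section and use `unip_analytic` (`V.F_hol`, `Base.eventually_nhdsWithin_iff`,
`Base.HolAt.comp_section`, `Base.holAt_of_comp_section`). `u_deriv`: fix `x` near `s.1` and `w`; the curve
`γ t = (x + t w, σ (x + t w))` lies in `S` near `t = 0`, and the column `b` of `u` along it is a section of
`F (p b)` (`col_mem`). By transversality its derivative `d` at `0` is in `F (p b - 1) = act u (Fge (p b - 1))`, so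
`u⁻¹ d` has only components `c` with `p b - 1 ≤ p c`; on the other hand `d a = 0` if `p b ≤ p a` (`u` is
unipotent, its entries there are constant), so `u⁻¹ d` has only components `c` with `p c < p b`. Hence only
`p c = p b - 1`, and the component `c` with `p c = p b - 1` of `u⁻¹ d` is `d c`.
-/

set_option autoImplicit false

namespace MP_cb3775_ag

open Filter Topology

variable {n N : ℕ} {B : Base n}

namespace Variation

open Classical in
/-- the period matrix in the frame on `U i`: `F^k = u · (span of the e_a with k ≤ p a)`. -/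
noncomputable def u (V : Variation B N) (i : V.ι) (s : Pt n) : Matrix (Fin N) (Fin N) ℂ :=
  if h : s ∈ V.U i ∩ B.pts then
    Classical.choose (exists_unip V.p (fun k => V.F i k s) (V.F_anti i s h)
      fun k => V.F_compl i k s h)
  else 1

variable (V : Variation B N)

theorem u_unip {i : V.ι} {s : Pt n} (hs : s ∈ V.U i ∩ B.pts) : IsUnip V.p (V.u i s) := by
  unfold u
  rw [dif_pos hs]
  exact (Classical.choose_spec (exists_unip V.p (fun k => V.F i k s) (V.F_anti i s hs)
      fun k => V.F_compl i k s hs)).1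

theorem F_eq {i : V.ι} {s : Pt n} (hs : s ∈ V.U i ∩ B.pts) (k : ℤ) :
    V.F i k s = act (V.u i s) (Fge V.p k) := by
  unfold u
  rw [dif_pos hs]
  exact (Classical.choose_spec (exists_unip V.p (fun k => V.F i k s) (V.F_anti i s hs)
      fun k => V.F_compl i k s hs)).2 k

theorem u_glue {i j : V.ι} {s : Pt n} (hs : s ∈ V.U i ∩ V.U j ∩ B.pts) :
    V.u i s = zc (V.g i j s) * V.u j s := by
  have hi : s ∈ V.U i ∩ B.pts := ⟨hs.1.1, hs.2⟩
  have hj : s ∈ V.U j ∩ B.pts := ⟨hs.1.2, hs.2⟩
  have hz : IsUnip V.p (zc (V.g i j s)) := by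
    intro a b hab
    have h1 := V.g_unip i j s hs a b hab
    rw [zc, Matrix.map_apply, h1]
    split_ifs
    · exact Int.cast_one
    · exact Int.cast_zero
  refine unip_unique (V.u_unip hi) (isUnip_mul hz (V.u_unip hj)) fun k => ?_
  rw [act_mul, ← V.F_eq hi, ← V.F_eq hj]
  exact V.F_glue i j k s hs

theorem u_hol {i : V.ι} {s : Pt n} (hs : s ∈ V.U i ∩ B.pts) (a b : Fin N) :
    B.HolAt (fun t => V.u i t a b) s := by
  obtain ⟨σ, hσ⟩ := B.section_exists s hs.2
  refine Base.holAt_of_comp_section hσ ?_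
  refine unip_analytic V.p s.1 (fun k x => V.F i k (x, σ x)) (fun x => V.u i (x, σ x)) ?_ ?_ a b
  · have hc : ContinuousAt (fun x : Fin n → ℂ => ((x, σ x) : Pt n)) s.1 :=
      continuousAt_id.prodMk hσ.1.continuousAt
    have hU : V.U i ∈ 𝓝 (((s.1, σ s.1) : Pt n)) := by
      rw [hσ.2.1]
      exact (V.isOpen i).mem_nhds hs.1
    filter_upwards [hσ.eventually_mem, hc hU] with x hx hx'
    exact ⟨V.u_unip ⟨hx', hx⟩, fun k => V.F_eq ⟨hx', hx⟩ k⟩
  · intro k
    obtain ⟨m, v, hv, hF⟩ := V.F_hol i k s hs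
    refine ⟨m, fun j x => v j (x, σ x), fun j => (hv j).comp_section hσ, ?_⟩
    exact (Base.eventually_nhdsWithin_iff hσ _).1 hF

end Variation

end MP_cb3775_ag
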