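import Pool.Agent.Lib.MP_cb3775_ag.Defs

/-!
# Unipotent matrices with respect to the weights
-/

set_option autoImplicit false

namespace MP_cb3775_ag

open Filter Topology

variable {N : ℕ}

/-- the span of the basis vectors `e_a` with `k ≤ p a`. -/
def Fge (p : Fin N → ℤ) (k : ℤ) : Submodule ℂ (Fin N → ℂ) where
  carrier := {v | ∀ a, p a < k → v a = 0}
  add_mem' := fun {v w} hv hw a ha => by simp [hv a ha, hw a ha]
  zero_mem' := fun _ _ => rfl
  smul_mem' := fun c v hv a ha => by simp [hv a ha]

theorem act_one (F : Submodule ℂ (Fin N → ℂ)) : act 1 F = F := by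
  unfold act
  rw [Matrix.toLin'_one]
  exact Submodule.map_id F

theorem act_mul (A A' : Matrix (Fin N) (Fin N) ℂ) (F : Submodule ℂ (Fin N → ℂ)) :
    act (A * A') F = act A (act A' F) := by
  unfold act
  rw [Matrix.toLin'_mul, Submodule.map_comp]

theorem isUnip_one (p : Fin N → ℤ) {R : Type} [Zero R] [One R] :
    IsUnip p (1 : Matrix (Fin N) (Fin N) R) := by
  intro a b _
  exact Matrix.one_apply

theorem isUnip_mul {R : Type} [CommRing R] {p : Fin N → ℤ} {A A' : Matrix (Fin N) (Fin N) R}
    (h : IsUnip p A) (h' : IsUnip p A') : IsUnip p (A * A') := by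
  intro a b hab
  rw [Matrix.mul_apply, Finset.sum_eq_single a]
  · rw [h a a le_rfl, if_pos rfl, one_mul]
    exact h' a b hab
  · intro c _ hca
    rcases le_or_gt (p c) (p a) with hc | hc
    · rw [h a c hc, if_neg (Ne.symm hca), zero_mul]
    · have hcb : c ≠ b := by
        rintro rfl
        exact absurd hab (not_le.mpr hc)
      rw [h' c b (hab.trans hc.le), if_neg hcb, mul_zero]
  · intro hh
    exact absurd (Finset.mem_univ a) hh

private theorem blockTri {R : Type} [CommRing R] {p : Fin N → ℤ} {A : Matrix (Fin N) (Fin N) R}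
    (h : IsUnip p A) : Matrix.BlockTriangular A p := by
  intro a b hab
  have hne : a ≠ b := by
    rintro rfl
    exact lt_irrefl _ hab
  rw [h a b hab.le, if_neg hne]

theorem isUnip_det {R : Type} [CommRing R] {p : Fin N → ℤ} {A : Matrix (Fin N) (Fin N) R}
    (h : IsUnip p A) : A.det = 1 := by
  rw [(blockTri h).det]
  refine Finset.prod_eq_one fun k _ => ?_
  have hone : A.toSquareBlock p k = 1 := by
    ext a b
    rw [Matrix.toSquareBlock_def, Matrix.of_apply, Matrix.one_apply,
      h a.1 b.1 (le_of_eq (b.2.trans a.2.symm))]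
    simp only [Subtype.ext_iff]
  rw [hone, Matrix.det_one]

theorem isUnip_inv {R : Type} [CommRing R] {p : Fin N → ℤ} {A : Matrix (Fin N) (Fin N) R}
    (h : IsUnip p A) : IsUnip p A⁻¹ := by
  have hdet : IsUnit A.det := by
    rw [isUnip_det h]
    exact isUnit_one
  let _ : Invertible A := Matrix.invertibleOfIsUnitDet A hdet
  have ht : Matrix.BlockTriangular A⁻¹ p :=
    Matrix.blockTriangular_inv_of_blockTriangular (blockTri h)
  intro a b hab
  have hmul : (A⁻¹ * A) a b = if a = b then 1 else 0 := by
    rw [Matrix.nonsing_inv_mul A hdet, Matrix.one_apply]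
  rw [Matrix.mul_apply, Finset.sum_eq_single b] at hmul
  · rw [h b b le_rfl, if_pos rfl, mul_one] at hmul
    exact hmul
  · intro c _ hcb
    rcases lt_or_ge (p c) (p a) with hc | hc
    · rw [ht hc, zero_mul]
    · rw [h c b (hab.trans hc), if_neg hcb, mul_zero]
  · intro hh
    exact absurd (Finset.mem_univ b) hh

/-- the entries between neighbouring weights are additive. -/
theorem unip_mul_entry {R : Type} [CommRing R] {p : Fin N → ℤ} {A A' : Matrix (Fin N) (Fin N) R}
    (h : IsUnip p A) (h' : IsUnip p A') {a b : Fin N} (hab : p a = p b - 1) :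
    (A * A') a b = A a b + A' a b := by
  have hne : a ≠ b := by
    rintro rfl
    omega
  rw [Matrix.mul_apply, ← Finset.sum_subset (Finset.subset_univ {b, a})]
  · rw [Finset.sum_pair (Ne.symm hne), h' b b le_rfl, if_pos rfl, mul_one, h a a le_rfl,
      if_pos rfl, one_mul]
  · intro c _ hc
    rw [Finset.mem_insert, Finset.mem_singleton, not_or] at hc
    rcases le_or_gt (p c) (p a) with hca | hca
    · rw [h a c hca, if_neg (Ne.symm hc.2), zero_mul]
    · rw [h' c b (by omega), if_neg hc.1, mul_zero]

/-- the columns lie in the filtration. -/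
theorem col_mem {p : Fin N → ℤ} {u : Matrix (Fin N) (Fin N) ℂ} (b : Fin N) :
    (fun a => u a b) ∈ act u (Fge p (p b)) := by
  refine Submodule.mem_map.mpr ⟨Pi.single b 1, ?_, ?_⟩
  · intro a ha
    have hne : a ≠ b := by
      rintro rfl
      exact lt_irrefl _ ha
    exact Pi.single_eq_of_ne hne 1
  · rw [Matrix.toLin'_apply, Matrix.mulVec_single_one]
    rfl

end MP_cb3775_ag
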