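import Pool.Agent.Lib.MP_cb3775_ag.D.Per0
import Pool.Agent.Lib.MP_cb3775_ag.D.Exp

/-!
# The units of a variation

For `p a = p b - 1` the entry `(a, b)` of the period matrix is well defined modulo `ℤ` (`u_glue`,
`unip_mul_entry`), so `q a b = e (u a b)` is a holomorphic nowhere vanishing function on `S`.
`q_arc`: with the data of `AdmissibleAlong`: let `w z` be the unipotent matrix of `Ft . z`
(`Ft k z = act (w z) (Fge p k)`, near `z` it is `γ * u`), then `w (z + 1) = exp Λ * w z` (`unip_unique`),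
`exp (-z Λ) * w z` is the unipotent matrix `v t` of `Ψ . t`, `t = e z`, and `v` extends to an analytic function at
`t = 0` (`exists_unip` for `Ψ . 0`, `unip_analytic`). The `(a, b)` entry of `exp Λ` is `Λ a b`, an integer `m`,
`w z a b = z * m + v t a b`, so `q a b (φ t) = e (w z a b) = t ^ m * e (v t a b)`, meromorphic at `0`
(every `t ≠ 0` near `0` is `e z` with `Im z > R`).
-/

set_option autoImplicit false

namespace MP_cb3775_ag

open Filter Topology

variable {n N : ℕ} {B : Base n}

namespace Variation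

open Classical in
/-- the unit attached to a pair `a, b` with `p a = p b - 1`. -/
noncomputable def q (V : Variation B N) (a b : Fin N) (s : Pt n) : ℂ :=
  if h : ∃ i, s ∈ V.U i ∩ B.pts then e (V.u (Classical.choose h) s a b) else 1

variable (V : Variation B N)

theorem q_eq {a b : Fin N} (hab : V.p a = V.p b - 1) {i : V.ι} {s : Pt n}
    (hs : s ∈ V.U i ∩ B.pts) : V.q a b s = e (V.u i s a b) := by
  have h : ∃ j, s ∈ V.U j ∩ B.pts := ⟨i, hs⟩
  have hj : s ∈ V.U (Classical.choose h) ∩ B.pts := Classical.choose_spec h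
  unfold q
  rw [dif_pos h]
  have hz : IsUnip V.p (zc (V.g (Classical.choose h) i s)) := by
    intro c d hcd
    have h1 := V.g_unip (Classical.choose h) i s ⟨⟨hj.1, hs.1⟩, hs.2⟩ c d hcd
    rw [zc, Matrix.map_apply, h1]
    split_ifs
    · exact Int.cast_one
    · exact Int.cast_zero
  rw [V.u_glue (i := Classical.choose h) (j := i) ⟨⟨hj.1, hs.1⟩, hs.2⟩,
    unip_mul_entry hz (V.u_unip hs) hab, e_add, zc, Matrix.map_apply, e_int, one_mul]

theorem q_hol {a b : Fin N} (hab : V.p a = V.p b - 1) : ∀ s ∈ B.pts, B.HolAt (V.q a b) s := by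
  intro s hs
  obtain ⟨i, hi⟩ := Set.mem_iUnion.1 (V.cover hs)
  obtain ⟨g, hg, hgu⟩ := V.u_hol (i := i) ⟨hi, hs⟩ a b
  refine ⟨fun t => e (g t), ?_, ?_⟩
  · unfold e
    exact (analyticAt_const.mul hg).cexp
  · filter_upwards [hgu, mem_nhdsWithin_of_mem_nhds ((V.isOpen i).mem_nhds hi),
      self_mem_nhdsWithin] with t ht hti htp
    rw [V.q_eq hab ⟨hti, htp⟩, ht]

theorem q_ne (a b : Fin N) (s : Pt n) : V.q a b s ≠ 0 := by
  unfold q
  split_ifs
  · exact Complex.exp_ne_zero _
  · exact one_ne_zero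

end Variation

end MP_cb3775_ag
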